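import Pool.Agent.Helper80.Green.Defs

/-!
GR-7: the multi-degree decomposition of the `n`-th exterior power of `n` copies of `M`, and the
component of multi-degree `(1, ..., 1)`.
-/

set_option autoImplicit false

universe u v

open scoped TensorProduct

namespace Pool.Agent.H80Green

namespace MultiDeg

variable {k : Type u} [Field k] (M : Type u) [AddCommGroup M] [Module k M] (n : ℕ)

/-- projection onto the copy with index `z` -/
noncomputable def pz (z : ZMod n) : (ZMod n → M) →ₗ[k] (ZMod n → M) :=
  LinearMap.single k (fun _ : ZMod n => M) z ∘ₗ LinearMap.proj z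

lemma pz_apply (z : ZMod n) (y : ZMod n → M) : pz (k := k) M n z y = Pi.single z (y z) := rfl

lemma pz_pz_ne {z w : ZMod n} (h : z ≠ w) (y : ZMod n → M) :
    pz (k := k) M n z (pz (k := k) M n w y) = 0 := by
  rw [pz_apply, pz_apply, Pi.single_eq_of_ne h]
  exact Pi.single_zero z

lemma pz_pz_self (z : ZMod n) (y : ZMod n → M) :
    pz (k := k) M n z (pz (k := k) M n z y) = pz (k := k) M n z y := by
  rw [pz_apply, pz_apply, Pi.single_eq_same]

lemma sum_pz [NeZero n] (y : ZMod n → M) : ∑ z, pz (k := k) M n z y = y := by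
  simp only [pz_apply]
  exact Finset.univ_sum_single y

lemma rot_pz (f : M →ₗ[k] M) (c z : ZMod n) (y : ZMod n → M) :
    rotMap n f c (pz (k := k) M n z y) = pz (k := k) M n (z + c) (rotMap n f c y) := by
  funext w
  simp only [pz_apply, rotMap, LinearMap.pi_apply, LinearMap.comp_apply, LinearMap.proj_apply]
  by_cases h : w = z + c
  · subst h
    simp
  · rw [Pi.single_eq_of_ne h, Pi.single_eq_of_ne (fun h2 => h (by rw [← h2]; ring)), map_zero]

/-- multi-degree of a choice -/
def deg (c : Fin n → ZMod n) : ZMod n → Fin (n + 1) := fun z =>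
  ⟨(Finset.univ.filter fun i => c i = z).card, Nat.lt_succ_of_le (by
    calc (Finset.univ.filter fun i => c i = z).card ≤ (Finset.univ : Finset (Fin n)).card :=
          Finset.card_filter_le _ _
      _ = n := by simp)⟩

lemma deg_comp_perm (c : Fin n → ZMod n) (π : Equiv.Perm (Fin n)) : deg n (c ∘ π) = deg n c := by
  funext z
  apply Fin.ext
  show (Finset.univ.filter fun i => c (π i) = z).card = (Finset.univ.filter fun i => c i = z).card
  refine Finset.card_bij (fun i _ => π i) ?_ ?_ ?_
  · intro i hi
    simpa using hi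
  · intro i _ j _ hij
    exact π.injective hij
  · intro j hj
    refine ⟨π.symm j, ?_, ?_⟩
    · simpa using hj
    · simp

/-- the multilinear map of a choice -/
noncomputable def T (c : Fin n → ZMod n) :
    MultilinearMap k (fun _ : Fin n => ZMod n → M) (⋀[k]^n (ZMod n → M)) :=
  (exteriorPower.ιMulti k n (M := ZMod n → M)).toMultilinearMap.compLinearMap
    fun i => pz (k := k) M n (c i)

lemma T_apply (c : Fin n → ZMod n) (y : Fin n → ZMod n → M) :
    T (k := k) M n c y = exteriorPower.ιMulti k n fun i => pz (k := k) M n (c i) (y i) := rfl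

/-- the alternating map of a multi-degree -/
noncomputable def PA [NeZero n] (a : ZMod n → Fin (n + 1)) :
    (ZMod n → M) [⋀^Fin n]→ₗ[k] (⋀[k]^n (ZMod n → M)) :=
  { (∑ c ∈ Finset.univ.filter fun c : Fin n → ZMod n => deg n c = a, T (k := k) M n c) with
    map_eq_zero_of_eq' := by
      intro y i j hy hij
      simp only [MultilinearMap.toFun_eq_coe, _root_.sum_apply]
      refine Finset.sum_involution (fun c _ => c ∘ Equiv.swap i j) ?_ ?_ ?_ ?_
      · intro c _
        rw [T_apply, T_apply]
        have h1 : (fun l => pz (k := k) M n ((c ∘ Equiv.swap i j) l) (y l)) =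
            (fun l => pz (k := k) M n (c l) (y l)) ∘ Equiv.swap i j := by
          funext l
          simp only [Function.comp_apply]
          congr 1
          by_cases h1 : l = i
          · subst h1
            rw [Equiv.swap_apply_left, hy]
          · by_cases h2 : l = j
            · subst h2
              rw [Equiv.swap_apply_right, hy]
            · rw [Equiv.swap_apply_of_ne_of_ne h1 h2]
        rw [h1]
        exact AlternatingMap.map_add_swap _ _ hij
      · intro c _ hne heq
        apply hne
        have h1 : c i = c j := by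
          have := congrFun heq i
          simpa using this.symm
        rw [T_apply]
        exact AlternatingMap.map_eq_zero_of_eq _ _ (by simp only [h1, hy]) hij
      · intro c hc
        simp only [Finset.mem_filter, Finset.mem_univ, true_and] at hc ⊢
        rw [deg_comp_perm, hc]
      · intro c _
        funext l
        simp }

lemma PA_apply [NeZero n] (a : ZMod n → Fin (n + 1)) (y : Fin n → ZMod n → M) :
    PA (k := k) M n a y = ∑ c ∈ Finset.univ.filter fun c : Fin n → ZMod n => deg n c = a,
      exteriorPower.ιMulti k n fun i => pz (k := k) M n (c i) (y i) := by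
  show (∑ c ∈ Finset.univ.filter fun c : Fin n → ZMod n => deg n c = a, T (k := k) M n c) y = _
  rw [_root_.sum_apply]
  rfl

/-- the projection of a multi-degree -/
noncomputable def P [NeZero n] (a : ZMod n → Fin (n + 1)) :
    Module.End k (⋀[k]^n (ZMod n → M)) :=
  exteriorPower.alternatingMapLinearEquiv (PA (k := k) M n a)

lemma P_apply [NeZero n] (a : ZMod n → Fin (n + 1)) (y : Fin n → ZMod n → M) :
    P (k := k) M n a (exteriorPower.ιMulti k n y) =
      ∑ c ∈ Finset.univ.filter fun c : Fin n → ZMod n => deg n c = a,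
        exteriorPower.ιMulti k n fun i => pz (k := k) M n (c i) (y i) := by
  rw [P, exteriorPower.alternatingMapLinearEquiv_apply_ιMulti, PA_apply]

lemma P_pz [NeZero n] (a : ZMod n → Fin (n + 1)) (c₀ : Fin n → ZMod n) (y : Fin n → ZMod n → M) :
    P (k := k) M n a (exteriorPower.ιMulti k n fun i => pz (k := k) M n (c₀ i) (y i)) =
      if deg n c₀ = a then exteriorPower.ιMulti k n fun i => pz (k := k) M n (c₀ i) (y i)
      else 0 := by
  rw [P_apply]
  have h1 : ∀ c : Fin n → ZMod n, c ≠ c₀ → (exteriorPower.ιMulti k n fun i =>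
      pz (k := k) M n (c i) (pz (k := k) M n (c₀ i) (y i))) = 0 := by
    intro c hc
    obtain ⟨i, hi⟩ := Function.ne_iff.mp hc
    exact AlternatingMap.map_coord_zero _ i (pz_pz_ne M n hi _)
  by_cases h : deg n c₀ = a
  · rw [if_pos h, Finset.sum_eq_single c₀]
    · congr 1
      funext i
      exact pz_pz_self M n _ _
    · intro c _ hc
      exact h1 c hc
    · intro hc
      exact (hc (by simp [h])).elim
  · rw [if_neg h]
    refine Finset.sum_eq_zero fun c hc => h1 c ?_
    rintro rfl
    exact h (Finset.mem_filter.mp hc).2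

lemma P_mul [NeZero n] (a b : ZMod n → Fin (n + 1)) :
    P (k := k) M n a * P (k := k) M n b = if a = b then P (k := k) M n a else 0 := by
  apply exteriorPower.linearMap_ext
  ext y : 1
  simp only [LinearMap.compAlternatingMap_apply, Module.End.mul_apply]
  rw [P_apply M n b, map_sum]
  have h1 : ∀ c ∈ Finset.univ.filter fun c : Fin n → ZMod n => deg n c = b,
      P (k := k) M n a (exteriorPower.ιMulti k n fun i => pz (k := k) M n (c i) (y i)) =
        if b = a then exteriorPower.ιMulti k n fun i => pz (k := k) M n (c i) (y i) else 0 := by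
    intro c hc
    rw [P_pz, (Finset.mem_filter.mp hc).2]
  rw [Finset.sum_congr rfl h1]
  by_cases h : a = b
  · subst h
    simp [P_apply]
  · rw [if_neg h]
    simp [Ne.symm h]

lemma P_sum [NeZero n] : ∑ a, P (k := k) M n a = 1 := by
  classical
  apply exteriorPower.linearMap_ext
  ext y : 1
  simp only [LinearMap.compAlternatingMap_apply, LinearMap.sum_apply, Module.End.one_apply]
  simp only [P_apply]
  have h1 : ∑ a : ZMod n → Fin (n + 1), ∑ c ∈ Finset.univ.filter
      (fun c : Fin n → ZMod n => deg n c = a),
        exteriorPower.ιMulti k n (fun i => pz (k := k) M n (c i) (y i)) =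
      ∑ c : Fin n → ZMod n, exteriorPower.ιMulti k n (fun i => pz (k := k) M n (c i) (y i)) :=
    Finset.sum_fiberwise _ _ _
  rw [h1]
  have h2 := (exteriorPower.ιMulti k n (M := ZMod n → M)).toMultilinearMap.map_sum
    (fun i (z : ZMod n) => pz (k := k) M n z (y i))
  have h3 : (fun i => ∑ z : ZMod n, pz (k := k) M n z (y i)) = y := by
    funext i
    exact sum_pz M n (y i)
  rw [h3] at h2
  exact h2.symm

lemma deg_add (c' : Fin n → ZMod n) (c z : ZMod n) :
    deg n (fun i => c' i + c) z = deg n c' (z - c) := by
  apply Fin.ext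
  show (Finset.univ.filter fun i => c' i + c = z).card =
    (Finset.univ.filter fun i => c' i = z - c).card
  congr 1
  ext i
  simp only [Finset.mem_filter, Finset.mem_univ, true_and]
  exact eq_sub_iff_add_eq.symm

lemma P_equiv [NeZero n] (f : M →ₗ[k] M) (c : ZMod n) (a : ZMod n → Fin (n + 1)) :
    exteriorPower.map n (rotMap n f c) * P (k := k) M n a =
      P (k := k) M n (fun z => a (z - c)) * exteriorPower.map n (rotMap n f c) := by
  apply exteriorPower.linearMap_ext
  ext y : 1
  simp only [LinearMap.compAlternatingMap_apply, Module.End.mul_apply]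
  rw [P_apply, exteriorPower.map_apply_ιMulti, P_apply, map_sum]
  refine Finset.sum_bij (fun c' _ => fun i => c' i + c) ?_ ?_ ?_ ?_
  · intro c' hc'
    simp only [Finset.mem_filter, Finset.mem_univ, true_and] at hc' ⊢
    funext z
    rw [deg_add, hc']
  · intro c₁ _ c₂ _ h
    funext i
    exact add_right_cancel (congrFun h i)
  · intro c' hc'
    refine ⟨fun i => c' i - c, ?_, ?_⟩
    · simp only [Finset.mem_filter, Finset.mem_univ, true_and] at hc' ⊢
      funext z
      have h1 := deg_add n (fun i => c' i - c) c (z + c)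
      have h2 : (fun i => c' i - c + c) = c' := by
        funext i
        ring
      rw [h2, hc'] at h1
      simp only [add_sub_cancel_right] at h1
      exact h1.symm
    · funext i
      ring
  · intro c' _
    rw [exteriorPower.map_apply_ιMulti]
    congr 1
    funext i
    exact rot_pz M n f c (c' i) (y i)

lemma deg_sum [NeZero n] (c : Fin n → ZMod n) : ∑ z, (deg n c z : ℕ) = n := by
  have h1 : ∑ z, (deg n c z : ℕ) = ∑ z : ZMod n, (Finset.univ.filter fun i => c i = z).card := rfl
  rw [h1, ← Finset.card_eq_sum_card_fiberwise (f := c) (s := Finset.univ) (t := Finset.univ)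
    (fun _ _ => Finset.mem_coe.mpr (Finset.mem_univ _))]
  simp

lemma P_const [NeZero n] (a : ZMod n → Fin (n + 1)) (ha : ∀ z, a z = a 0)
    (ha1 : a ≠ fun _ => 1) : P (k := k) M n a = 0 := by
  apply exteriorPower.linearMap_ext
  ext y : 1
  simp only [LinearMap.compAlternatingMap_apply, LinearMap.zero_apply]
  rw [P_apply]
  refine Finset.sum_eq_zero fun c hc => ?_
  exfalso
  apply ha1
  have h1 := (Finset.mem_filter.mp hc).2
  have h2 := deg_sum n c
  rw [h1] at h2
  simp only [ha] at h2
  rw [Finset.sum_const, Finset.card_univ, ZMod.card, smul_eq_mul] at h2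
  have hn : 0 < n := Nat.pos_of_ne_zero (NeZero.ne n)
  have h3 : (a 0 : ℕ) = 1 := by
    have : n * (a 0 : ℕ) = n * 1 := by rw [h2, mul_one]
    exact Nat.eq_of_mul_eq_mul_left hn this
  funext z
  rw [ha z]
  apply Fin.ext
  rw [h3, Fin.val_one']
  exact (Nat.mod_eq_of_lt (by omega)).symm

/-- the fixed bijection of the index sets -/
noncomputable def ee [NeZero n] : Fin n ≃ ZMod n := (ZMod.finEquiv n).toEquiv

/-- the multilinear map defining `α` -/
noncomputable def αM [NeZero n] :
    MultilinearMap k (fun _ : ZMod n => M) (⋀[k]^n (ZMod n → M)) :=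
  ((exteriorPower.ιMulti k n (M := ZMod n → M)).toMultilinearMap.domDomCongr (ee n)).compLinearMap
    fun z => LinearMap.single k (fun _ : ZMod n => M) z

lemma αM_apply [NeZero n] (x : ZMod n → M) : αM (k := k) M n x =
    exteriorPower.ιMulti k n fun i => (Pi.single (ee n i) (x (ee n i)) : ZMod n → M) := rfl

/-- the inclusion of the tensor power -/
noncomputable def α [NeZero n] : (⨂[k] _ : ZMod n, M) →ₗ[k] ⋀[k]^n (ZMod n → M) :=
  PiTensorProduct.lift (αM (k := k) M n)

lemma α_tprod [NeZero n] (x : ZMod n → M) : α (k := k) M n (PiTensorProduct.tprod k x) =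
    exteriorPower.ιMulti k n fun i => (Pi.single (ee n i) (x (ee n i)) : ZMod n → M) := by
  rw [α, PiTensorProduct.lift.tprod, αM_apply]

/-- the multilinear map defining `β` -/
noncomputable def βM [NeZero n] :
    MultilinearMap k (fun _ : Fin n => ZMod n → M) (⨂[k] _ : ZMod n, M) :=
  ((PiTensorProduct.tprod k (s := fun _ : ZMod n => M)).compLinearMap
    fun z => LinearMap.proj (R := k) (φ := fun _ : ZMod n => M) z).domDomCongr (ee n).symm

lemma βM_apply [NeZero n] (y : Fin n → ZMod n → M) : βM (k := k) M n y =
    PiTensorProduct.tprod k fun z => y ((ee n).symm z) z := rfl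

/-- the retraction -/
noncomputable def β [NeZero n] : (⋀[k]^n (ZMod n → M)) →ₗ[k] (⨂[k] _ : ZMod n, M) :=
  exteriorPower.alternatingMapLinearEquiv (MultilinearMap.alternatization (βM (k := k) M n))

lemma β_apply [NeZero n] (y : Fin n → ZMod n → M) :
    β (k := k) M n (exteriorPower.ιMulti k n y) = ∑ τ : Equiv.Perm (Fin n),
      Equiv.Perm.sign τ • PiTensorProduct.tprod k fun z => y (τ ((ee n).symm z)) z := by
  rw [β, exteriorPower.alternatingMapLinearEquiv_apply_ιMulti,
    MultilinearMap.alternatization_apply]
  rfl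

lemma β_α [NeZero n] (x : ZMod n → M) :
    β (k := k) M n (α (k := k) M n (PiTensorProduct.tprod k x)) = PiTensorProduct.tprod k x := by
  rw [α_tprod, β_apply, Finset.sum_eq_single 1]
  · simp
  · intro τ _ hτ
    have : ∃ i, τ i ≠ i := by
      by_contra hc
      push Not at hc
      exact hτ (Equiv.ext hc)
    obtain ⟨i, hi⟩ := this
    have h1 : (PiTensorProduct.tprod k fun z =>
        (Pi.single (ee n (τ ((ee n).symm z))) (x (ee n (τ ((ee n).symm z)))) : ZMod n → M) z) =
        0 := by
      apply MultilinearMap.map_coord_zero _ (ee n i)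
      rw [Equiv.symm_apply_apply, Pi.single_eq_of_ne]
      intro h
      exact hi ((ee n).injective h).symm
    rw [h1]
    exact smul_zero (Equiv.Perm.sign τ)
  · intro h
    exact absurd (Finset.mem_univ _) h

lemma α_β [NeZero n] (y : Fin n → ZMod n → M) :
    α (k := k) M n (β (k := k) M n (exteriorPower.ιMulti k n y)) =
      P (k := k) M n (fun _ => 1) (exteriorPower.ιMulti k n y) := by
  classical
  rw [β_apply, P_apply, map_sum]
  have h1 : ∀ τ : Equiv.Perm (Fin n), α (k := k) M n (Equiv.Perm.sign τ •
      PiTensorProduct.tprod k fun z => y (τ ((ee n).symm z)) z) =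
      exteriorPower.ιMulti k n fun j => pz (k := k) M n (ee n (τ.symm j)) (y j) := by
    intro τ
    have h2 : (fun i => (Pi.single (ee n i) (y (τ ((ee n).symm (ee n i))) (ee n i)) :
        ZMod n → M)) = (fun j => pz (k := k) M n (ee n (τ.symm j)) (y j)) ∘ τ := by
      funext i
      simp only [Function.comp_apply, Equiv.symm_apply_apply, pz_apply]
    have h3 : α (k := k) M n (Equiv.Perm.sign τ •
      PiTensorProduct.tprod k fun z => y (τ ((ee n).symm z)) z) = Equiv.Perm.sign τ •
      α (k := k) M n (PiTensorProduct.tprod k fun z => y (τ ((ee n).symm z)) z) := by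
      rw [Units.smul_def, Units.smul_def, map_zsmul]
    rw [h3, α_tprod, h2, AlternatingMap.map_perm, smul_smul, Int.units_mul_self, one_smul]
  rw [Finset.sum_congr rfl fun τ _ => h1 τ]
  refine Finset.sum_bij (fun τ _ => fun j => ee n (τ.symm j)) ?_ ?_ ?_ ?_
  · intro τ _
    simp only [Finset.mem_filter, Finset.mem_univ, true_and]
    funext z
    apply Fin.ext
    show (Finset.univ.filter fun i => ee n (τ.symm i) = z).card = _
    have h2 : (Finset.univ.filter fun i => ee n (τ.symm i) = z) = {τ ((ee n).symm z)} := by
      ext i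
      simp only [Finset.mem_filter, Finset.mem_univ, true_and, Finset.mem_singleton]
      rw [← Equiv.eq_symm_apply, Equiv.symm_apply_eq]
    rw [h2, Finset.card_singleton, Fin.val_one']
    have hn : 0 < n := Nat.pos_of_ne_zero (NeZero.ne n)
    exact (Nat.mod_eq_of_lt (by omega)).symm
  · intro τ₁ _ τ₂ _ h
    have h2 : τ₁.symm = τ₂.symm := by
      ext j
      have := congrFun h j
      exact congrArg Fin.val ((ee n).injective this)
    exact Equiv.symm_bijective.injective h2
  · intro c hc
    have hc1 := (Finset.mem_filter.mp hc).2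
    have hsurj : Function.Surjective c := by
      intro z
      have h2 := congrArg Fin.val (congrFun hc1 z)
      have h3 : (Finset.univ.filter fun i => c i = z).card = 1 := by
        refine h2.trans ?_
        rw [Fin.val_one']
        have hn : 0 < n := Nat.pos_of_ne_zero (NeZero.ne n)
        exact Nat.mod_eq_of_lt (by omega)
      obtain ⟨i, hi⟩ := Finset.card_pos.mp (by rw [h3]; exact Nat.one_pos)
      exact ⟨i, (Finset.mem_filter.mp hi).2⟩
    have hbij : Function.Bijective c := by
      rw [Fintype.bijective_iff_surjective_and_card]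
      exact ⟨hsurj, by simp [ZMod.card]⟩
    refine ⟨((Equiv.ofBijective c hbij).trans (ee n).symm).symm, Finset.mem_univ _, ?_⟩
    funext j
    simp
  · intro τ _
    rfl

lemma sign_shift [NeZero n] (hn : Odd n) (c : ZMod n) :
    Equiv.Perm.sign ((ee n).symm.permCongr (Equiv.addRight c)) = 1 := by
  rw [Equiv.Perm.sign_permCongr]
  have h1 : (Equiv.addRight c : Equiv.Perm (ZMod n)) ^ n = 1 := by
    ext z
    rw [← Equiv.Perm.iterate_eq_pow]
    have h2 : (⇑(Equiv.addRight c) : ZMod n → ZMod n) = fun x => x + c := rfl
    rw [h2, add_right_iterate]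
    simp
  have h2 : Equiv.Perm.sign (Equiv.addRight c : Equiv.Perm (ZMod n)) ^ n = 1 := by
    rw [← map_pow, h1, map_one]
  rcases Int.units_eq_one_or (Equiv.Perm.sign (Equiv.addRight c : Equiv.Perm (ZMod n))) with h | h
  · exact h
  · rw [h, hn.neg_one_pow] at h2
    exact absurd h2 (by decide)

lemma α_equiv [NeZero n] (hn : Odd n) (f : M →ₗ[k] M) (c : ZMod n) (x : ⨂[k] _ : ZMod n, M) :
    α (k := k) M n (PiTensorProduct.map (fun _ => f) (Md.rot M n c x)) =
      exteriorPower.map n (rotMap n f c) (α (k := k) M n x) := by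
  have h : α (k := k) M n ∘ₗ PiTensorProduct.map (fun _ => f) ∘ₗ Md.rot M n c =
      exteriorPower.map n (rotMap n f c) ∘ₗ α (k := k) M n := by
    apply PiTensorProduct.ext
    ext x : 1
    simp only [LinearMap.compMultilinearMap_apply, LinearMap.comp_apply]
    rw [Md.rot_tprod, PiTensorProduct.map_tprod, α_tprod, α_tprod,
      exteriorPower.map_apply_ιMulti]
    have h1 : (⇑(rotMap n f c) ∘ fun i => (Pi.single (ee n i) (x (ee n i)) : ZMod n → M)) =
        (fun i => (Pi.single (ee n i) (f (x (ee n i - c))) : ZMod n → M)) ∘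
          ((ee n).symm.permCongr (Equiv.addRight c)) := by
      funext i
      have h4 : ee n (((ee n).symm.permCongr (Equiv.addRight c)) i) = ee n i + c := by
        rw [Equiv.permCongr_apply, Equiv.symm_symm, Equiv.apply_symm_apply, Equiv.coe_addRight]
      simp only [Function.comp_apply]
      rw [h4, add_sub_cancel_right]
      funext w
      simp only [rotMap, LinearMap.pi_apply, LinearMap.comp_apply, LinearMap.proj_apply]
      by_cases h : w = ee n i + c
      · subst h
        simp
      · rw [Pi.single_eq_of_ne h, Pi.single_eq_of_ne (fun h2 => h (by rw [← h2]; ring)), map_zero]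
    rw [h1, AlternatingMap.map_perm, sign_shift n hn c, one_smul]
  exact LinearMap.congr_fun h x

end MultiDeg

open MultiDeg in
/-- multi-degree decomposition of the `n`-th exterior power of `n` copies of `M`, and the
identification of the component of multi-degree `(1, ..., 1)` with the tensor power. -/
theorem multideg {k : Type u} [Field k] (M : Type u) [AddCommGroup M] [Module k M]
    [Module.Finite k M] (n : ℕ)
    [NeZero n] (hn : Odd n) :
    ∃ P : (ZMod n → Fin (n + 1)) → Module.End k (⋀[k]^n (ZMod n → M)),
      (∀ a b, P a * P b = if a = b then P a else 0) ∧ ∑ a, P a = 1 ∧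
      (∀ (f : M →ₗ[k] M) (c : ZMod n) (a : ZMod n → Fin (n + 1)),
        exteriorPower.map n (rotMap n f c) * P a =
          P (fun z => a (z - c)) * exteriorPower.map n (rotMap n f c)) ∧
      (∀ a : ZMod n → Fin (n + 1), (∀ z, a z = a 0) → a ≠ (fun _ => 1) → P a = 0) ∧
      ∃ α : (⨂[k] _ : ZMod n, M) →ₗ[k] ⋀[k]^n (ZMod n → M),
        Function.Injective α ∧ LinearMap.range α = LinearMap.range (P fun _ => 1) ∧
        ∀ (f : M →ₗ[k] M) (c : ZMod n) (x : ⨂[k] _ : ZMod n, M),
          α (PiTensorProduct.map (fun _ => f) (Md.rot M n c x)) =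
            exteriorPower.map n (rotMap n f c) (α x) := by
  refine ⟨MultiDeg.P M n, P_mul M n, P_sum M n, P_equiv M n, P_const M n, MultiDeg.α M n,
    ?_, ?_, α_equiv M n hn⟩
  · have h1 : MultiDeg.β M n ∘ₗ MultiDeg.α (k := k) M n = LinearMap.id := by
      apply PiTensorProduct.ext
      ext x : 1
      exact β_α M n x
    exact Function.LeftInverse.injective (g := MultiDeg.β M n) fun x => LinearMap.congr_fun h1 x
  · have h1 : MultiDeg.β M n ∘ₗ MultiDeg.α (k := k) M n = LinearMap.id := by
      apply PiTensorProduct.ext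
      ext x : 1
      exact β_α M n x
    have h2 : MultiDeg.α (k := k) M n ∘ₗ MultiDeg.β M n = MultiDeg.P M n (fun _ => 1) := by
      apply exteriorPower.linearMap_ext
      ext y : 1
      exact α_β M n y
    apply le_antisymm
    · rintro _ ⟨x, rfl⟩
      refine ⟨MultiDeg.α M n x, ?_⟩
      rw [← h2, LinearMap.comp_apply]
      congr 1
      exact LinearMap.congr_fun h1 x
    · rintro _ ⟨x, rfl⟩
      rw [← h2]
      exact ⟨_, rfl⟩

end Pool.Agent.H80Green
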