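import Pool.Agent.Helper80.Green.Tw1

/-!
GR-6: the orbit lemma for the twisted trace.
-/

set_option autoImplicit false

universe u v

open scoped TensorProduct

namespace Pool.Agent.H80Green

variable {k : Type u} [Field k] {G : Type v} [Group G]

namespace Orbit

/-- shifting a periodic sum -/
lemma sum_shift {M : Type*} [AddCommMonoid M] [IsRightCancelAdd M] (f : ℕ → M) (m : ℕ)
    (hf : ∀ j, f (j + m) = f j) (d : ℕ) :
    ∑ j ∈ Finset.range m, f (j + d) = ∑ j ∈ Finset.range m, f j := by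
  induction d with
  | zero => simp
  | succ d ih =>
    rw [← ih]
    have h1 := Finset.sum_range_succ (fun j => f (j + d)) m
    have h2 := Finset.sum_range_succ' (fun j => f (j + d)) m
    rw [h1] at h2
    have h3 : f (m + d) = f (0 + d) := by
      rw [zero_add, add_comm]
      exact hf d
    simp only [h3] at h2
    have h4 := add_right_cancel h2
    rw [h4]
    refine Finset.sum_congr rfl fun j _ => ?_
    congr 1
    ring

lemma range_stable {H : Type*} [Group H] (V : Md k H) (Q : Module.End k V.carrier)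
    (hQ : ∀ g x, Q (V.rep g x) = V.rep g (Q x)) :
    ∀ g, LinearMap.range Q ≤ (LinearMap.range Q).comap (V.rep g) := by
  rintro g _ ⟨x, rfl⟩
  exact ⟨V.rep g x, hQ g x⟩

lemma mem_range_idem {W : Type*} [AddCommGroup W] [Module k W] {Q : Module.End k W}
    (hQ : Q * Q = Q) {x : W} (hx : x ∈ LinearMap.range Q) : Q x = x := by
  obtain ⟨y, rfl⟩ := hx
  exact LinearMap.congr_fun hQ y

lemma split_iso {H : Type*} [Group H] (V : Md k H) (Q Q' : Module.End k V.carrier)
    (hQ : ∀ g x, Q (V.rep g x) = V.rep g (Q x)) (hQ' : ∀ g x, Q' (V.rep g x) = V.rep g (Q' x))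
    (h1 : Q * Q = Q) (h2 : Q' * Q' = Q') (h3 : Q * Q' = 0) (h4 : Q' * Q = 0)
    (hs : ∀ g, LinearMap.range (Q + Q') ≤ (LinearMap.range (Q + Q')).comap (V.rep g)) :
    Md.Iso (V.sub (LinearMap.range (Q + Q')) hs)
      ((V.sub (LinearMap.range Q) (range_stable V Q hQ)).prod
        (V.sub (LinearMap.range Q') (range_stable V Q' hQ'))) := by
  have e1 : ∀ x, Q (Q x) = Q x := LinearMap.congr_fun h1
  have e2 : ∀ x, Q' (Q' x) = Q' x := LinearMap.congr_fun h2
  have e3 : ∀ x, Q (Q' x) = 0 := LinearMap.congr_fun h3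
  have e4 : ∀ x, Q' (Q x) = 0 := LinearMap.congr_fun h4
  refine ⟨LinearEquiv.ofLinearMap
    ((Q.rangeRestrict ∘ₗ (LinearMap.range (Q + Q')).subtype).prod
      (Q'.rangeRestrict ∘ₗ (LinearMap.range (Q + Q')).subtype))
    (LinearMap.codRestrict _ ((LinearMap.range Q).subtype.coprod (LinearMap.range Q').subtype)
      ?_) ?_ ?_, ?_⟩
  · rintro ⟨⟨_, y, rfl⟩, ⟨_, z, rfl⟩⟩
    refine ⟨Q y + Q' z, ?_⟩
    simp [e1, e2, e3, e4]
  · apply LinearMap.ext
    rintro ⟨⟨_, y, rfl⟩, ⟨_, z, rfl⟩⟩
    apply Prod.ext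
    · apply Subtype.ext
      show Q (Q y + Q' z) = Q y
      rw [map_add, e1, e3, add_zero]
    · apply Subtype.ext
      show Q' (Q y + Q' z) = Q' z
      rw [map_add, e2, e4, zero_add]
  · apply LinearMap.ext
    rintro ⟨_, y, rfl⟩
    apply Subtype.ext
    show Q ((Q + Q') y) + Q' ((Q + Q') y) = (Q + Q') y
    simp [e1, e2, e3, e4]
  · intro g x
    apply Prod.ext
    · apply Subtype.ext
      exact hQ g x.1
    · apply Subtype.ext
      exact hQ' g x.1

lemma eig_shift {n : ℕ} (V : Md k (G × Cyc n)) (e : V.carrier ≃ₗ[k] V.carrier) (d : k)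
    (hd : d ≠ 0) (he : ∀ (g : G) x, e (V.rep (g, 1) x) = V.rep (g, 1) (e x))
    (hs : ∀ x, V.sig (e x) = d • e (V.sig x)) (c : k) :
    Md.Iso (V.eig c) (V.eig (d * c)) := by
  have h1 : ∀ x ∈ Module.End.eigenspace V.sig c, e x ∈ Module.End.eigenspace V.sig (d * c) := by
    intro x hx
    rw [Module.End.mem_eigenspace_iff] at hx ⊢
    rw [hs, hx, map_smul, smul_smul]
  have h2 : ∀ y ∈ Module.End.eigenspace V.sig (d * c),
      e.symm y ∈ Module.End.eigenspace V.sig c := by
    intro y hy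
    rw [Module.End.mem_eigenspace_iff] at hy ⊢
    apply e.injective
    have h3 := hs (e.symm y)
    rw [LinearEquiv.apply_symm_apply, hy] at h3
    rw [map_smul, LinearEquiv.apply_symm_apply]
    have h4 : d • (c • y) = d • e (V.sig (e.symm y)) := by rw [smul_smul]; exact h3
    exact (smul_right_injective _ hd h4).symm
  refine ⟨LinearEquiv.ofLinearMap (e.toLinearMap.restrict h1) (e.symm.toLinearMap.restrict h2)
    ?_ ?_, ?_⟩
  · ext y
    simp [LinearMap.restrict_apply]
  · ext y
    simp [LinearMap.restrict_apply]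
  · intro g x
    apply Subtype.ext
    exact he g x

/-- if the module is isomorphic to its twist by a nontrivial character, the twisted trace is
zero -/
lemma tw_zero (s : Species k G) {n : ℕ} [NeZero n] {ζ : k}
    (hζ : IsPrimitiveRoot ζ n) {ξ : ℂ} (hξ : IsPrimitiveRoot ξ n) (V : Md k (G × Cyc n))
    (d : ℕ) (hd0 : 0 < d) (hdn : d < n)
    (h : ∀ c : k, Md.Iso (V.eig c) (V.eig (ζ ^ d * c))) : s.tw ζ ξ V = 0 := by
  set F : ℕ → ℂ := fun i => s.val (V.eig (ζ ^ i)) with hF
  have hFd : ∀ i, F (i + d) = F i := by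
    intro i
    simp only [hF]
    rw [s.iso _ _ (h (ζ ^ i)), ← pow_add, add_comm]
  have hFn : ∀ i, F (i + n) = F i := by
    intro i
    simp only [hF]
    rw [pow_add, hζ.pow_eq_one, mul_one]
  have h1 : s.tw ζ ξ V = ∑ i ∈ Finset.range n, ξ ^ i * F i := rfl
  have h2 := sum_shift (fun i => ξ ^ i * F i) n (by
    intro j
    rw [hFn, pow_add, hξ.pow_eq_one, mul_one]) d
  have h3 : ∑ j ∈ Finset.range n, ξ ^ (j + d) * F (j + d) =
      ξ ^ d * ∑ j ∈ Finset.range n, ξ ^ j * F j := by
    rw [Finset.mul_sum]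
    refine Finset.sum_congr rfl fun j _ => ?_
    rw [hFd, pow_add]
    ring
  rw [h3, ← h1] at h2
  have h4 : ξ ^ d ≠ 1 := hξ.pow_ne_one_of_pos_of_lt hd0.ne' hdn
  have h5 : (ξ ^ d - 1) * s.tw ζ ξ V = 0 := by
    rw [sub_mul, one_mul, h2, sub_self]
  exact (mul_eq_zero.mp h5).resolve_left (sub_ne_zero.mpr h4)

lemma rep_eq {n : ℕ} [NeZero n] (V : Md k (G × Cyc n)) (g : G) (c : Cyc n) :
    V.rep (g, c) = V.rep (g, 1) * V.sig ^ (Multiplicative.toAdd c).val := by
  have h1 : V.sig ^ (Multiplicative.toAdd c).val = V.rep (1, c) := by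
    rw [Md.sig, ← map_pow]
    congr 1
    apply Prod.ext
    · simp
    · show (cyc (1 : ZMod n)) ^ (Multiplicative.toAdd c).val = c
      rw [cyc, ← ofAdd_nsmul]
      apply Multiplicative.toAdd.injective
      rw [toAdd_ofAdd, nsmul_eq_mul, mul_one, ZMod.natCast_val, ZMod.cast_id', id_eq]
  rw [h1, ← map_mul]
  simp

lemma comm_all {n : ℕ} [NeZero n] (V : Md k (G × Cyc n)) (Q : Module.End k V.carrier)
    (hG : ∀ g : G, Q * V.rep (g, 1) = V.rep (g, 1) * Q) (hs : V.sig * Q = Q * V.sig) :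
    ∀ (g : G × Cyc n) x, Q (V.rep g x) = V.rep g (Q x) := by
  rintro ⟨g, c⟩ x
  have h1 : Q * V.rep (g, c) = V.rep (g, c) * Q := by
    rw [rep_eq, ← mul_assoc, hG, mul_assoc, mul_assoc]
    congr 1
    exact ((Commute.pow_left (show Commute V.sig Q from hs) _).eq).symm
  exact LinearMap.congr_fun h1 x

section

variable {n : ℕ} [NeZero n] {ζ : k} (V : Md k (G × Cyc n)) {A : Type} [Fintype A]
  [DecidableEq A] (π : Equiv.Perm A) (P : A → Module.End k V.carrier)

lemma sum_idem (hP : ∀ a b, P a * P b = if a = b then P a else 0) (S S' : Finset A) :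
    (∑ a ∈ S, P a) * (∑ a ∈ S', P a) = ∑ a ∈ S ∩ S', P a := by
  rw [Finset.sum_mul_sum]
  simp only [hP]
  rw [← Finset.sum_filter_add_sum_filter_not S (fun a => a ∈ S')]
  have h1 : ∑ x ∈ S.filter (fun a => ¬ a ∈ S'), ∑ x_1 ∈ S', (if x = x_1 then P x else 0) = 0 := by
    refine Finset.sum_eq_zero fun x hx => ?_
    refine Finset.sum_eq_zero fun y hy => ?_
    rw [if_neg]
    rintro rfl
    exact (Finset.mem_filter.mp hx).2 hy
  rw [h1, add_zero, ← Finset.filter_mem_eq_inter]
  refine Finset.sum_congr rfl fun x hx => ?_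
  rw [Finset.sum_ite_eq, if_pos (Finset.mem_filter.mp hx).2]

lemma sum_commG (hG : ∀ a (g : G), P a * V.rep (g, 1) = V.rep (g, 1) * P a) (S : Finset A)
    (g : G) : (∑ a ∈ S, P a) * V.rep (g, 1) = V.rep (g, 1) * ∑ a ∈ S, P a := by
  rw [Finset.sum_mul, Finset.mul_sum]
  exact Finset.sum_congr rfl fun a _ => hG a g

lemma sum_commS (hσ : ∀ a, V.sig * P a = P (π a) * V.sig) (S : Finset A)
    (hS : S.image π = S) : V.sig * (∑ a ∈ S, P a) = (∑ a ∈ S, P a) * V.sig := by
  rw [Finset.mul_sum, Finset.sum_congr rfl fun a _ => hσ a, ← Finset.sum_mul]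
  congr 1
  conv_rhs => rw [← hS]
  rw [Finset.sum_image fun a _ b _ h => π.injective h]

/-- the twisted trace of the sum of a nontrivial orbit is zero -/
lemma orbit_zero (s : Species k G) (hζ : IsPrimitiveRoot ζ n) {ξ : ℂ}
    (hξ : IsPrimitiveRoot ξ n)
    (hP : ∀ a b, P a * P b = if a = b then P a else 0)
    (hG : ∀ a (g : G), P a * V.rep (g, 1) = V.rep (g, 1) * P a)
    (hσ : ∀ a, V.sig * P a = P (π a) * V.sig) (a : A) (m : ℕ) (hm : 1 < m) (hmn : m ∣ n)
    (hper : π^[m] a = a) (hinj : ∀ i < m, ∀ j < m, π^[i] a = π^[j] a → i = j)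
    (hst : ∀ g, LinearMap.range (∑ j ∈ Finset.range m, P (π^[j] a)) ≤
      (LinearMap.range (∑ j ∈ Finset.range m, P (π^[j] a))).comap (V.rep g)) :
    s.tw ζ ξ (V.sub (LinearMap.range (∑ j ∈ Finset.range m, P (π^[j] a))) hst) = 0 := by
  obtain ⟨d, hd⟩ := hmn
  have hn0 : n ≠ 0 := NeZero.ne n
  have hd0 : 0 < d := by
    rcases Nat.eq_zero_or_pos d with h | h
    · rw [h, mul_zero] at hd
      exact absurd hd hn0
    · exact h
  have hdn : d < n := by
    rw [hd]
    nlinarith
  set η : k := ζ ^ d with hη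
  have hηm : η ^ m = 1 := by
    rw [hη, ← pow_mul, mul_comm d m, ← hd]
    exact hζ.pow_eq_one
  have hη0 : η ≠ 0 := by
    intro h
    rw [h, zero_pow (by omega)] at hηm
    exact zero_ne_one hηm
  set Q : Module.End k V.carrier := ∑ j ∈ Finset.range m, P (π^[j] a) with hQ
  have hperj : ∀ j, π^[j + m] a = π^[j] a := by
    intro j
    rw [Function.iterate_add_apply, hper]
  have prod : ∀ u w : ℕ → k, (∑ j ∈ Finset.range m, u j • P (π^[j] a)) *
      (∑ j ∈ Finset.range m, w j • P (π^[j] a)) =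
        ∑ j ∈ Finset.range m, (u j * w j) • P (π^[j] a) := by
    intro u w
    rw [Finset.sum_mul_sum]
    refine Finset.sum_congr rfl fun i hi => ?_
    rw [Finset.sum_eq_single i]
    · rw [smul_mul_smul_comm, hP, if_pos rfl]
    · intro j hj hji
      rw [smul_mul_smul_comm, hP, if_neg, smul_zero]
      intro h
      exact hji (hinj i (Finset.mem_range.mp hi) j (Finset.mem_range.mp hj) h).symm
    · intro h
      exact absurd hi h
  have hQ1 : Q = ∑ j ∈ Finset.range m, (1 : k) • P (π^[j] a) := by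
    simp [hQ]
  set D : Module.End k V.carrier := ∑ j ∈ Finset.range m, (η⁻¹ ^ j) • P (π^[j] a) with hD
  set D' : Module.End k V.carrier := ∑ j ∈ Finset.range m, (η ^ j) • P (π^[j] a) with hD'
  have hDD' : D * D' = Q := by
    rw [hQ1, hD, hD', prod]
    refine Finset.sum_congr rfl fun j _ => ?_
    rw [inv_pow, inv_mul_cancel₀ (pow_ne_zero j hη0)]
  have hD'D : D' * D = Q := by
    rw [hQ1, hD, hD', prod]
    refine Finset.sum_congr rfl fun j _ => ?_
    rw [inv_pow, mul_inv_cancel₀ (pow_ne_zero j hη0)]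
  have hQD : Q * D = D := by
    rw [hQ1, hD, prod]
    simp
  have hQD' : Q * D' = D' := by
    rw [hQ1, hD', prod]
    simp
  have hQQ : Q * Q = Q := by
    rw [hQ1, prod]
    simp
  have hDG : ∀ (g : G) x, D (V.rep (g, 1) x) = V.rep (g, 1) (D x) := by
    intro g x
    have : D * V.rep (g, 1) = V.rep (g, 1) * D := by
      rw [hD, Finset.sum_mul, Finset.mul_sum]
      refine Finset.sum_congr rfl fun j _ => ?_
      rw [smul_mul_assoc, hG, mul_smul_comm]
    exact LinearMap.congr_fun this x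
  have hDs : V.sig * D = η • (D * V.sig) := by
    have h1 := sum_shift (fun j => (η⁻¹ ^ j) • P (π^[j] a)) m (by
      intro j
      rw [hperj, pow_add, inv_pow η m, hηm, inv_one, mul_one]) 1
    have h2 : V.sig * D = η • ((∑ j ∈ Finset.range m, (η⁻¹ ^ (j + 1)) • P (π^[j + 1] a)) *
        V.sig) := by
      rw [hD, Finset.mul_sum, Finset.sum_mul, Finset.smul_sum]
      refine Finset.sum_congr rfl fun j _ => ?_
      rw [mul_smul_comm, hσ, ← Function.iterate_succ_apply' π j a, smul_mul_assoc, smul_smul,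
        pow_succ, mul_comm (η⁻¹ ^ j), ← mul_assoc, mul_inv_cancel₀ hη0, one_mul]
    rw [h2, h1]
  set U : Md k (G × Cyc n) := V.sub (LinearMap.range Q) hst with hU
  have hQx : ∀ x : LinearMap.range Q, Q x.1 = x.1 := fun x => mem_range_idem hQQ x.2
  have hDr : ∀ x ∈ LinearMap.range Q, D x ∈ LinearMap.range Q := fun x _ =>
    ⟨D x, LinearMap.congr_fun hQD x⟩
  have hD'r : ∀ x ∈ LinearMap.range Q, D' x ∈ LinearMap.range Q := fun x _ =>
    ⟨D' x, LinearMap.congr_fun hQD' x⟩
  let e : LinearMap.range Q ≃ₗ[k] LinearMap.range Q :=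
    LinearEquiv.ofLinearMap (D.restrict hDr) (D'.restrict hD'r)
      (by
        ext x
        show D (D' x.1) = x.1
        rw [← hQx x]
        exact (LinearMap.congr_fun hDD' (Q x.1)).trans (by rw [hQx x]; exact hQx x))
      (by
        ext x
        show D' (D x.1) = x.1
        rw [← hQx x]
        exact (LinearMap.congr_fun hD'D (Q x.1)).trans (by rw [hQx x]; exact hQx x))
  refine tw_zero s hζ hξ U d hd0 hdn fun c => ?_
  refine eig_shift U e η hη0 ?_ ?_ c
  · intro g x
    apply Subtype.ext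
    exact hDG g x.1
  · intro x
    apply Subtype.ext
    exact LinearMap.congr_fun hDs x.1

end

lemma tw_congr_range (s : Species k G) {n : ℕ} (ζ : k) (ξ : ℂ) (V : Md k (G × Cyc n))
    (Q Q' : Module.End k V.carrier) (h : Q = Q')
    (hs : ∀ g, LinearMap.range Q ≤ (LinearMap.range Q).comap (V.rep g))
    (hs' : ∀ g, LinearMap.range Q' ≤ (LinearMap.range Q').comap (V.rep g)) :
    s.tw ζ ξ (V.sub (LinearMap.range Q) hs) = s.tw ζ ξ (V.sub (LinearMap.range Q') hs') := by
  subst h
  rfl

lemma tw_range_zero (s : Species k G) {n : ℕ} (ζ : k) (ξ : ℂ) (V : Md k (G × Cyc n))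
    (Q : Module.End k V.carrier) (h : Q = 0)
    (hs : ∀ g, LinearMap.range Q ≤ (LinearMap.range Q).comap (V.rep g)) :
    s.tw ζ ξ (V.sub (LinearMap.range Q) hs) = 0 := by
  unfold Species.tw
  refine Finset.sum_eq_zero fun i _ => ?_
  rw [s.val_of_dim_zero, mul_zero]
  have h1 : Subsingleton (LinearMap.range Q) := by
    rw [h, LinearMap.range_zero]
    infer_instance
  have h2 : Subsingleton (Module.End.eigenspace (V.sub (LinearMap.range Q) hs).sig (ζ ^ i)) :=
    ⟨fun x y => Subtype.ext (h1.elim _ _)⟩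
  exact Module.finrank_zero_of_subsingleton

/-- the twisted trace of a stable sum without relevant fixed points is zero -/
lemma stable_zero (s : Species k G) {n : ℕ} [NeZero n] {ζ : k}
    (hζ : IsPrimitiveRoot ζ n) {ξ : ℂ} (hξ : IsPrimitiveRoot ξ n) (V : Md k (G × Cyc n))
    {A : Type} [Fintype A] [DecidableEq A] (π : Equiv.Perm A) (hπ : π ^ n = 1)
    (P : A → Module.End k V.carrier) (hP : ∀ a b, P a * P b = if a = b then P a else 0)
    (hG : ∀ a (g : G), P a * V.rep (g, 1) = V.rep (g, 1) * P a)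
    (hσ : ∀ a, V.sig * P a = P (π a) * V.sig) (N : ℕ) :
    ∀ S : Finset A, S.card = N → (∀ a ∈ S, π a ∈ S) → (∀ a ∈ S, π a = a → P a = 0) →
      ∀ hst : ∀ g, LinearMap.range (∑ a ∈ S, P a) ≤
        (LinearMap.range (∑ a ∈ S, P a)).comap (V.rep g),
      s.tw ζ ξ (V.sub (LinearMap.range (∑ a ∈ S, P a)) hst) = 0 := by
  induction N using Nat.strong_induction_on with
  | _ N ih =>
    intro S hSN hSπ hSfix hst
    have himg : ∀ T : Finset A, (∀ a ∈ T, π a ∈ T) → T.image π = T := by
      intro T hT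
      apply Finset.eq_of_subset_of_card_le
      · intro b hb
        obtain ⟨a, ha, rfl⟩ := Finset.mem_image.mp hb
        exact hT a ha
      · rw [Finset.card_image_of_injective _ π.injective]
    rcases S.eq_empty_or_nonempty with h0 | ⟨a, ha⟩
    · apply tw_range_zero
      rw [h0, Finset.sum_empty]
    · set m := Function.minimalPeriod π a with hm
      have hpn : Function.IsPeriodicPt π n a := by
        show π^[n] a = a
        rw [Equiv.Perm.iterate_eq_pow, hπ, Equiv.Perm.one_apply]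
      have hmn : m ∣ n := hpn.minimalPeriod_dvd
      have hm0 : 0 < m := Nat.pos_of_dvd_of_pos hmn (Nat.pos_of_ne_zero (NeZero.ne n))
      have hper : π^[m] a = a := Function.iterate_minimalPeriod
      have hinj : ∀ i < m, ∀ j < m, π^[i] a = π^[j] a → i = j := by
        intro i hi j hj h
        exact Function.iterate_injOn_Iio_minimalPeriod hi hj h
      set O : Finset A := (Finset.range m).image fun j => π^[j] a with hO
      have hOsum : ∑ b ∈ O, P b = ∑ j ∈ Finset.range m, P (π^[j] a) := by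
        rw [hO, Finset.sum_image]
        intro i hi j hj h
        exact hinj i (Finset.mem_range.mp hi) j (Finset.mem_range.mp hj) h
      have hSj : ∀ j, π^[j] a ∈ S := by
        intro j
        induction j with
        | zero => exact ha
        | succ j ihj =>
          rw [Function.iterate_succ_apply']
          exact hSπ _ ihj
      have hOS : O ⊆ S := by
        intro b hb
        obtain ⟨j, _, rfl⟩ := Finset.mem_image.mp hb
        exact hSj j
      have haO : a ∈ O := Finset.mem_image.mpr ⟨0, Finset.mem_range.mpr hm0, rfl⟩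
      have hOπ : ∀ b ∈ O, π b ∈ O := by
        intro b hb
        obtain ⟨j, hj, rfl⟩ := Finset.mem_image.mp hb
        have hj' := Finset.mem_range.mp hj
        rw [← Function.iterate_succ_apply' π j a]
        by_cases h : j + 1 < m
        · exact Finset.mem_image.mpr ⟨j + 1, Finset.mem_range.mpr h, rfl⟩
        · have h2 : j.succ = m := by omega
          rw [h2, hper]
          exact haO
      have hTπ : ∀ b ∈ S \ O, π b ∈ S \ O := by
        intro b hb
        rw [Finset.mem_sdiff] at hb ⊢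
        refine ⟨hSπ b hb.1, fun h => hb.2 ?_⟩
        have h1 := himg O hOπ
        rw [← h1] at h
        obtain ⟨c, hc, hcb⟩ := Finset.mem_image.mp h
        rwa [← π.injective hcb]
      have hQO := comm_all V (∑ b ∈ O, P b) (sum_commG V P hG O)
        (sum_commS V π P hσ O (himg O hOπ))
      have hQT := comm_all V (∑ b ∈ S \ O, P b) (sum_commG V P hG (S \ O))
        (sum_commS V π P hσ (S \ O) (himg _ hTπ))
      have hadd : ∑ b ∈ S, P b = (∑ b ∈ O, P b) + ∑ b ∈ S \ O, P b := by
        rw [add_comm]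
        exact (Finset.sum_sdiff hOS).symm
      have hst2 : ∀ g, LinearMap.range ((∑ b ∈ O, P b) + ∑ b ∈ S \ O, P b) ≤
          (LinearMap.range ((∑ b ∈ O, P b) + ∑ b ∈ S \ O, P b)).comap (V.rep g) := by
        rw [← hadd]
        exact hst
      rw [tw_congr_range s ζ ξ V _ _ hadd hst hst2]
      have hiso := split_iso V (∑ b ∈ O, P b) (∑ b ∈ S \ O, P b) hQO hQT
        (by rw [sum_idem V P hP, Finset.inter_self])
        (by rw [sum_idem V P hP, Finset.inter_self])
        (by rw [sum_idem V P hP, Finset.inter_sdiff_self, Finset.sum_empty])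
        (by rw [sum_idem V P hP, Finset.sdiff_inter_self, Finset.sum_empty]) hst2
      rw [s.tw_iso ζ ξ _ _ hiso, s.tw_add]
      have h1 : s.tw ζ ξ (V.sub (LinearMap.range (∑ b ∈ S \ O, P b))
          (range_stable V _ hQT)) = 0 := by
        refine ih (S \ O).card ?_ (S \ O) rfl hTπ ?_ _
        · rw [← hSN]
          apply Finset.card_lt_card
          refine ⟨Finset.sdiff_subset, fun h => ?_⟩
          exact (Finset.mem_sdiff.mp (h ha)).2 haO
        · intro b hb hb2
          exact hSfix b (Finset.mem_sdiff.mp hb).1 hb2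
      rw [h1, add_zero]
      have hst3 : ∀ g, LinearMap.range (∑ j ∈ Finset.range m, P (π^[j] a)) ≤
          (LinearMap.range (∑ j ∈ Finset.range m, P (π^[j] a))).comap (V.rep g) := by
        rw [← hOsum]
        exact range_stable V _ hQO
      rw [tw_congr_range s ζ ξ V _ _ hOsum (range_stable V _ hQO) hst3]
      by_cases hm1 : m = 1
      · apply tw_range_zero
        rw [hm1, Finset.sum_range_one]
        apply hSfix a ha
        have := hper
        rw [hm1] at this
        exact this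
      · exact orbit_zero V π P s hζ hξ hP hG hσ a m (by omega) hmn hper hinj hst3

end Orbit

theorem Species.tw_orbit (s : Species k G) {n : ℕ} [NeZero n] {ζ : k}
    (hζ : IsPrimitiveRoot ζ n) {ξ : ℂ} (hξ : IsPrimitiveRoot ξ n) (V : Md k (G × Cyc n))
    {A : Type} [Fintype A] [DecidableEq A] (π : Equiv.Perm A) (hπ : π ^ n = 1)
    (P : A → Module.End k V.carrier) (hP : ∀ a b, P a * P b = if a = b then P a else 0)
    (hsum : ∑ a, P a = 1) (hG : ∀ a (g : G), P a * V.rep (g, 1) = V.rep (g, 1) * P a)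
    (hσ : ∀ a, V.sig * P a = P (π a) * V.sig) (a₀ : A) (ha₀ : π a₀ = a₀)
    (hfix : ∀ a, π a = a → a ≠ a₀ → P a = 0)
    (hst : ∀ g, LinearMap.range (P a₀) ≤ (LinearMap.range (P a₀)).comap (V.rep g)) :
    s.tw ζ ξ V = s.tw ζ ξ (V.sub (LinearMap.range (P a₀)) hst) := by
  have hSπ : ∀ a ∈ Finset.univ.erase a₀, π a ∈ Finset.univ.erase a₀ := by
    intro a ha
    have h1 := Finset.ne_of_mem_erase ha
    refine Finset.mem_erase.mpr ⟨fun h => h1 ?_, Finset.mem_univ _⟩
    exact π.injective (h.trans ha₀.symm)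
  have himg : (Finset.univ.erase a₀).image π = Finset.univ.erase a₀ := by
    apply Finset.eq_of_subset_of_card_le
    · intro b hb
      obtain ⟨a, ha, rfl⟩ := Finset.mem_image.mp hb
      exact hSπ a ha
    · rw [Finset.card_image_of_injective _ π.injective]
  have hQ1 := Orbit.comm_all V (P a₀) (hG a₀) (by rw [hσ, ha₀])
  have hQ2 := Orbit.comm_all V (∑ b ∈ Finset.univ.erase a₀, P b)
    (Orbit.sum_commG V P hG _) (Orbit.sum_commS V π P hσ _ himg)
  have hadd : (1 : Module.End k V.carrier) = P a₀ + ∑ b ∈ Finset.univ.erase a₀, P b := by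
    rw [← hsum]
    exact (Finset.add_sum_erase _ _ (Finset.mem_univ a₀)).symm
  have h00 : P a₀ * P a₀ = P a₀ := by rw [hP, if_pos rfl]
  have h01 : P a₀ * ∑ b ∈ Finset.univ.erase a₀, P b = 0 := by
    rw [Finset.mul_sum]
    refine Finset.sum_eq_zero fun b hb => ?_
    rw [hP, if_neg (Finset.ne_of_mem_erase hb).symm]
  have h10 : (∑ b ∈ Finset.univ.erase a₀, P b) * P a₀ = 0 := by
    rw [Finset.sum_mul]
    refine Finset.sum_eq_zero fun b hb => ?_
    rw [hP, if_neg (Finset.ne_of_mem_erase hb)]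
  have hst2 : ∀ g, LinearMap.range (P a₀ + ∑ b ∈ Finset.univ.erase a₀, P b) ≤
      (LinearMap.range (P a₀ + ∑ b ∈ Finset.univ.erase a₀, P b)).comap (V.rep g) := by
    rw [← hadd]
    rintro g _ ⟨x, rfl⟩
    exact ⟨V.rep g x, rfl⟩
  have hiso := Orbit.split_iso V (P a₀) (∑ b ∈ Finset.univ.erase a₀, P b) hQ1 hQ2 h00
    (by rw [Orbit.sum_idem V P hP, Finset.inter_self]) h01 h10 hst2
  have hV : Md.Iso V (V.sub (LinearMap.range (P a₀ + ∑ b ∈ Finset.univ.erase a₀, P b)) hst2) := by
    refine ⟨LinearEquiv.ofLinearMap (LinearMap.codRestrict _ LinearMap.id ?_)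
      (Submodule.subtype _) ?_ ?_, ?_⟩
    · intro x
      rw [← hadd]
      exact ⟨x, rfl⟩
    · ext x
      rfl
    · ext x
      rfl
    · intro g x
      rfl
  rw [s.tw_iso ζ ξ _ _ hV, s.tw_iso ζ ξ _ _ hiso, s.tw_add]
  have h1 := Orbit.stable_zero s hζ hξ V π hπ P hP hG hσ _ (Finset.univ.erase a₀) rfl hSπ
    (fun a ha h => hfix a h (Finset.ne_of_mem_erase ha)) (Orbit.range_stable V _ hQ2)
  rw [h1, add_zero]

end Pool.Agent.H80Green
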